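import Pool.Agent.Work.MP_db9399_sx.Prep

/-! # FINX (owner helper1): VMIX and FIN after the services -/

set_option autoImplicit false
set_option linter.unusedSectionVars false

namespace Pool.Agent.Work.MP_db9399_sx.helper1

open Finset Classical
open Pool.Agent.Work.MP_db9399_all (nb)
open Pool.Agent.Work.MP_db9399_dn (IsMat Tot)
open Pool.Agent.Work.MP_db9399_bg (HPre)
open Pool.Agent.Work.MP_db9399_sl (InS Same Gout Gss Gin Gex Out Vert Spt Bip)
open Pool.Agent.Work.MP_db9399_sv (Cor Mis slo ms FE)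
open Pool.Agent.Work.MP_db9399_sw (shs sms wt wl od ac avl SHH Gxh Grh Lgt)
open Pool.Agent.Work.MP_db9399_sx

universe u

section
variable {V : Type u} [Fintype V] {k : ℕ}

theorem mem_nb (G : SimpleGraph V) (v w : V) : w ∈ nb G v ↔ G.Adj v w := by
  unfold nb; simp

theorem nb_bot (v : V) : nb (⊥ : SimpleGraph V) v = ∅ := by
  rw [eq_empty_iff_forall_notMem]
  intro w hw
  rw [mem_nb] at hw
  exact hw

theorem out_mono {δ δ' π : ℝ} {G Gx Gr EH : SimpleGraph V} {d : ℕ} {Ys : Finset (Finset V)}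
    {UH : Finset V} {c0 tu c : V → Fin k} {t : V → V → Fin k} {E : V → Finset (Fin k)}
    {K0 : Finset (Fin k)} {C : Fin 3 → Finset (Fin k)} {p : V → Fin 3} {a : V → Bool}
    {Z : Finset V} (h : Out δ π G Gx Gr EH d Ys UH c0 tu c t E K0 C p a Z) (hδ : δ ≤ δ') :
    Out δ' π G Gx Gr EH d Ys UH c0 tu c t E K0 C p a Z where
  K0c := h.K0c
  cU := h.cU
  cK := h.cK
  cc := h.cc
  ts := h.ts
  te := h.te
  tK := h.tK
  tc := h.tc
  ti := h.ti
  Et := h.Et
  EK := h.EK
  EU := h.EU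
  Ed := h.Ed
  CK := h.CK
  Cc := h.Cc
  Cd := h.Cd
  UZ := h.UZ
  ZY Y hY := (h.ZY Y hY).trans (mul_le_mul_of_nonneg_right hδ (Nat.cast_nonneg _))
  av := h.av
  cell Y hY i l := (h.cell Y hY i l).trans (mul_le_mul_of_nonneg_right hδ (Nat.cast_nonneg _))
  ld Y hY b := (h.ld Y hY b).trans (mul_le_mul_of_nonneg_right hδ (Nat.cast_nonneg _))

theorem vert_mono {δ δ' : ℝ} {G EH : SimpleGraph V} {d : ℕ} {Ys : Finset (Finset V)}
    {UH : Finset V} {c0 tu c : V → Fin k} {E : V → Finset (Fin k)}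
    {K0 : Finset (Fin k)} {C : Fin 3 → Finset (Fin k)} {p : V → Fin 3}
    {Z : Finset V} {F : V → Finset (Fin k)}
    (h : Vert δ G EH d Ys UH c0 tu c E K0 C p Z F) (hδ : δ ≤ δ') :
    Vert δ' G EH d Ys UH c0 tu c E K0 C p Z F where
  cU := h.cU
  cc := h.cc
  cE := h.cE
  EF := h.EF
  cF := h.cF
  FK := h.FK
  Fd := h.Fd
  av := h.av
  ZY Y hY := (h.ZY Y hY).trans (mul_le_mul_of_nonneg_right hδ (Nat.cast_nonneg _))
  ld Y hY b := (h.ld Y hY b).trans (mul_le_mul_of_nonneg_right hδ (Nat.cast_nonneg _))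
  par := h.par

/-- `Out` after the services -/
theorem out_of {δ δ' π : ℝ} {G EH : SimpleGraph V} {d : ℕ} {Ys : Finset (Finset V)}
    {UH : Finset V} {c0 tu c : V → Fin k} {t' t'' : V → V → Fin k}
    {E' E'' F0 : V → Finset (Fin k)} {K0 : Finset (Fin k)} {C : Fin 3 → Finset (Fin k)}
    {p : V → Fin 3} {a : V → Bool} {Z T : Finset V}
    (h : Out δ π G (Gex G Ys) ⊥ EH d Ys UH c0 tu c t' E' K0 C p a Z)
    (hC : Cor G EH d Ys UH c0 tu c t'' E'' F0 K0) (hT : ∀ v, v ∉ T → E'' v = E' v)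
    (hTY : ∀ Y ∈ Ys, ((Y ∩ T).card : ℝ) ≤ δ' * d) :
    Out (δ + δ') π G (Gex G Ys) ⊥ EH d Ys UH c0 tu c t'' E'' K0 C p a (Z ∪ T) where
  K0c := h.K0c
  cU := h.cU
  cK := h.cK
  cc := h.cc
  ts := hC.ts
  te := hC.te
  tK := hC.tK
  tc := hC.tc
  ti := hC.ti
  Et := hC.Et
  EK := hC.EK
  EU := hC.EU
  Ed v hv := by rw [nb_bot, card_empty, add_zero]; exact hC.Ed v hv
  CK := h.CK
  Cc := h.Cc
  Cd := h.Cd
  UZ v hv hv' := mem_union_left _ (h.UZ v hv hv')
  ZY Y hY := by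
    have h1 : (Y ∩ (Z ∪ T)).card ≤ (Y ∩ Z).card + (Y ∩ T).card := by
      rw [inter_union_distrib_left]
      exact card_union_le _ _
    have h2 : ((Y ∩ (Z ∪ T)).card : ℝ) ≤ (Y ∩ Z).card + (Y ∩ T).card := by exact_mod_cast h1
    rw [add_mul]
    linarith [h.ZY Y hY, hTY Y hY]
  av v hv hvZ := by
    rw [mem_union, not_or] at hvZ
    rw [hT v hvZ.2]
    exact h.av v hv hvZ.1
  cell Y hY i l := by
    have h1 : (0 : ℝ) ≤ δ' * d := le_trans (Nat.cast_nonneg _) (hTY Y hY)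
    refine (h.cell Y hY i l).trans ?_
    rw [add_mul]
    linarith
  ld Y hY b := by
    have h0 : (0 : ℝ) ≤ δ' * d := le_trans (Nat.cast_nonneg _) (hTY Y hY)
    have h1 : (Y.filter (fun v => v ∉ Z ∪ T ∧ b ∈ E'' v)).card ≤
        (Y.filter (fun v => v ∉ Z ∧ b ∈ E' v)).card := by
      apply card_le_card
      intro v hv
      rw [mem_filter, mem_union, not_or] at hv
      rw [mem_filter]
      refine ⟨hv.1, hv.2.1.1, ?_⟩
      rw [← hT v hv.2.1.2]
      exact hv.2.2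
    have h2 : ((Y.filter (fun v => v ∉ Z ∪ T ∧ b ∈ E'' v)).card : ℝ) ≤
        (Y.filter (fun v => v ∉ Z ∧ b ∈ E' v)).card := by exact_mod_cast h1
    refine h2.trans ((h.ld Y hY b).trans ?_)
    rw [add_mul]
    linarith

/-- all colours of `K0` at the vertices of `UH` -/
noncomputable def F0S (K0 : Finset (Fin k)) (F0 E : V → Finset (Fin k)) (v : V) :
    Finset (Fin k) := F0 v ∪ (E v ∩ K0)

theorem card_F0S {G EH : SimpleGraph V} {d : ℕ} {Ys : Finset (Finset V)}
    {UH : Finset V} {c0 tu c : V → Fin k} {t : V → V → Fin k} {E F0 : V → Finset (Fin k)}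
    {K0 : Finset (Fin k)} (hC : Cor G EH d Ys UH c0 tu c t E F0 K0)
    (hH : HPre G UH c0 EH tu)
    (hn : ∀ v ∈ UH, InS Ys v → (F0 v).card = if tu v ∈ K0 then 1 else 2)
    {v : V} (hv : v ∈ UH) (hvs : InS Ys v) :
    (F0S K0 F0 E v).card + (nb (Gin G EH Ys) v).card = d + 1 := by
  have h1 : (F0S K0 F0 E v).card = (F0 v).card + (E v ∩ K0).card := by
    unfold F0S
    apply card_union_of_disjoint
    exact disjoint_of_subset_right inter_subset_left (hC.F0d v hv hvs)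
  obtain ⟨w, hw⟩ := hH.cov v hv
  have htu : tu v ∈ E v := by
    have := hC.Et v w hvs (Or.inr hw)
    rwa [hC.te v w hw] at this
  have hE := (hC.EU v hv hvs).1
  have hd := hC.Ed v hvs
  have hn' := hn v hv hvs
  by_cases h : tu v ∈ K0
  · rw [if_pos h] at hn'
    have h2 : E v ∩ K0 = E v := by
      apply inter_eq_left.mpr
      intro b hb
      have := hE hb
      rw [mem_insert] at this
      rcases this with h3 | h3
      · rw [h3]; exact h
      · exact h3
    rw [h1, h2, hn']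
    omega
  · rw [if_neg h] at hn'
    have h2 : E v ∩ K0 = (E v).erase (tu v) := by
      ext b
      rw [mem_inter, mem_erase]
      constructor
      · rintro ⟨h3, h4⟩
        exact ⟨fun h5 => h (h5 ▸ h4), h3⟩
      · rintro ⟨h3, h4⟩
        refine ⟨h4, ?_⟩
        have := hE h4
        rw [mem_insert] at this
        exact this.resolve_left h3
    have h3 : 0 < (E v).card := card_pos.mpr ⟨_, htu⟩
    rw [h1, h2, hn', card_erase_of_mem htu]
    omega

theorem fst_FE {UH : Finset V} {K0 : Finset (Fin k)} {F0 E : V → Finset (Fin k)} {b : Fin k}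
    (hb : b ∈ K0) (v : V) :
    b ∉ MP_db9399_sw.fst UH (F0S K0 F0 E) E v ↔ b ∉ FE UH F0 E v := by
  unfold MP_db9399_sw.fst FE F0S
  split_ifs with h
  · rw [mem_union, mem_union, mem_inter]
    tauto
  · exact Iff.rfl

theorem two_UH {G : SimpleGraph V} {UH : Finset V} {c0 : V → Fin k}
    {EH : SimpleGraph V} {tu : V → Fin k} (h : HPre G UH c0 EH tu) (v : V) :
    ((nb G v).filter (fun w => w ∈ UH)).card ≤ 2 := by
  by_contra h1
  have h2 : 2 < ((nb G v).filter (fun w => w ∈ UH)).card := by omega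
  obtain ⟨a, b, c, ha, hb, hc, hab, hac, hbc⟩ := Finset.two_lt_card_iff.mp h2
  rw [mem_filter, mem_nb] at ha hb hc
  have h3 := (h.far v a ha.2 b hb.2 ha.1 hb.1).resolve_left hab
  have h4 := (h.far v a ha.2 c hc.2 ha.1 hc.1).resolve_left hac
  have h5 := h.mat a
  rw [card_le_one] at h5
  exact hbc (h5 b ((mem_nb _ _ _).mpr h3) c ((mem_nb _ _ _).mpr h4))

theorem wl_le {G : SimpleGraph V} {d : ℕ} (hd : ∀ v, (nb G v).card ≤ d) (Hs Y : Finset V) :
    wl G d Hs Y ≤ wt G d Y := by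
  unfold wl wt
  apply sum_le_sum_of_subset_of_nonneg sdiff_subset
  intro v _ _
  have h1 : (nb G v ∩ Y).card ≤ d := (card_le_card inter_subset_left).trans (hd v)
  have h2 : ((nb G v ∩ Y).card : ℝ) ≤ d := by exact_mod_cast h1
  linarith

/-- loss of availability -/
theorem avl_loss {G : SimpleGraph V} {Ys : Finset (Finset V)} {UH : Finset V} {c : V → Fin k}
    {E E' E'' : V → Finset (Fin k)} {T Y : Finset V} {b : Fin k}
    (hT : ∀ v, v ∉ T → E'' v = E' v) :
    (avl G Ys UH c E Y b).card ≤ (avl G Ys UH c E'' Y b).card +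
      (Y.filter (fun v => b ∈ E' v ∧ b ∉ E v)).card + (Y ∩ T).card := by
  have h1 : avl G Ys UH c E Y b ⊆ (avl G Ys UH c E'' Y b ∪
      Y.filter (fun v => b ∈ E' v ∧ b ∉ E v)) ∪ (Y ∩ T) := by
    intro v hv
    unfold avl at hv ⊢
    rw [mem_filter] at hv
    rw [mem_union, mem_union, mem_filter, mem_filter, mem_inter]
    by_cases hvT : v ∈ T
    · exact Or.inr ⟨hv.1, hvT⟩
    · left
      by_cases hb : b ∈ E' v
      · exact Or.inr ⟨hv.1, hb, hv.2.2.1⟩
      · left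
        refine ⟨hv.1, hv.2.1, ?_, hv.2.2.2⟩
        rw [hT v hvT]
        exact hb
  exact (card_le_card h1).trans ((card_union_le _ _).trans
    (Nat.add_le_add_right (card_union_le _ _) _))

theorem avl_lossG {G : SimpleGraph V} {Ys : Finset (Finset V)} {UH : Finset V} {c : V → Fin k}
    {E E' E'' : V → Finset (Fin k)} {T Y Gd : Finset V} {b : Fin k}
    (hT : ∀ v, v ∉ T → E'' v = E' v) (hG : ∀ v ∈ Gd, v ∉ T) :
    (avl G Ys UH c E Y b ∩ Gd).card ≤ (avl G Ys UH c E'' Y b ∩ Gd).card +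
      ((Y ∩ Gd).filter (fun v => b ∈ E' v ∧ b ∉ E v)).card := by
  have h1 : avl G Ys UH c E Y b ∩ Gd ⊆ (avl G Ys UH c E'' Y b ∩ Gd) ∪
      (Y ∩ Gd).filter (fun v => b ∈ E' v ∧ b ∉ E v) := by
    intro v hv
    rw [mem_inter] at hv
    have hv1 := hv.1
    unfold avl at hv1
    rw [mem_filter] at hv1
    rw [mem_union, mem_inter, mem_filter, mem_inter]
    unfold avl
    rw [mem_filter]
    by_cases hb : b ∈ E' v
    · exact Or.inr ⟨⟨hv1.1, hv.2⟩, hb, hv1.2.2.1⟩
    · left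
      refine ⟨⟨hv1.1, hv1.2.1, ?_, hv1.2.2.2⟩, hv.2⟩
      rw [hT v (hG v hv.2)]
      exact hb
  exact (card_le_card h1).trans (card_union_le _ _)

end

/-- logarithms -/
theorem logs (x a0 : ℝ) (hx : 0 < x) (ha : 0 < a0) : ∃ d0 : ℕ, ∀ d : ℕ, d0 ≤ d →
    1 ≤ Real.log d ^ 3 ∧ 1 ≤ Real.log d ^ 5 ∧ 1 ≤ 2 * Real.log d ^ 8 ∧
    10 ^ 9 * Real.log d ^ 3 ≤ x * (a0 * Real.log d ^ 8) ∧
    10 ^ 9 * (2 * Real.log d ^ 8 * Real.log d ^ 5) ≤ x * d := by
  have h1 : ∀ᶠ d : ℕ in Filter.atTop, 1 ≤ Real.log d :=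
    (Real.tendsto_log_atTop.comp tendsto_natCast_atTop_atTop).eventually_ge_atTop 1
  have h2 : ∀ᶠ d : ℕ in Filter.atTop, 10 ^ 9 / (x * a0) ≤ Real.log d :=
    (Real.tendsto_log_atTop.comp tendsto_natCast_atTop_atTop).eventually_ge_atTop _
  have h3 : ∀ᶠ d : ℕ in Filter.atTop, Real.log d ^ 13 ≤ x / (2 * 10 ^ 9) * d := by
    have h4 : (fun y : ℝ => Real.log y ^ 13) =o[Filter.atTop] (fun y : ℝ => y) := by
      exact Real.isLittleO_pow_log_id_atTop (n := 13)
    have h5 := (h4.bound (show (0 : ℝ) < x / (2 * 10 ^ 9) by positivity)).natCast_atTop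
    filter_upwards [h5] with d hd
    rw [Real.norm_eq_abs, Real.norm_eq_abs, abs_of_nonneg (Nat.cast_nonneg d : (0 : ℝ) ≤ d)] at hd
    exact (le_abs_self _).trans hd
  obtain ⟨d0, hd0⟩ := Filter.eventually_atTop.mp (h1.and (h2.and h3))
  refine ⟨d0, fun d hd => ?_⟩
  obtain ⟨g1, g2, g3⟩ := hd0 d hd
  have q3 : 1 ≤ Real.log d ^ 3 := one_le_pow₀ g1
  have q5 : 1 ≤ Real.log d ^ 5 := one_le_pow₀ g1
  have q8 : 1 ≤ Real.log d ^ 8 := one_le_pow₀ g1
  refine ⟨q3, q5, by linarith, ?_, ?_⟩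
  · rw [div_le_iff₀ (by positivity)] at g2
    have h4 : Real.log d ≤ Real.log d ^ 5 := by
      calc Real.log d = Real.log d ^ 1 := (pow_one _).symm
        _ ≤ Real.log d ^ 5 := pow_le_pow_right₀ g1 (by norm_num)
    have h5 : (10 : ℝ) ^ 9 ≤ x * a0 * Real.log d ^ 5 := by
      calc (10 : ℝ) ^ 9 ≤ Real.log d * (x * a0) := g2
        _ = x * a0 * Real.log d := by ring
        _ ≤ x * a0 * Real.log d ^ 5 := mul_le_mul_of_nonneg_left h4 (by positivity)
    calc 10 ^ 9 * Real.log d ^ 3 ≤ x * a0 * Real.log d ^ 5 * Real.log d ^ 3 :=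
          mul_le_mul_of_nonneg_right h5 (by linarith)
      _ = x * (a0 * Real.log d ^ 8) := by ring
  · have : 10 ^ 9 * (2 * Real.log d ^ 8 * Real.log d ^ 5) = 2 * 10 ^ 9 * Real.log d ^ 13 := by
      ring
    rw [this]
    have h4 : 2 * 10 ^ 9 * Real.log (d : ℝ) ^ 13 ≤ 2 * 10 ^ 9 * (x / (2 * 10 ^ 9) * d) :=
      mul_le_mul_of_nonneg_left g3 (by norm_num)
    refine h4.trans (le_of_eq ?_)
    ring

/-- **FINX** -/
theorem stmt_FINX (hVMIX : MP_db9399_sw.Stmt_VMIX.{u}) (hFIN : MP_db9399_sl.Stmt_FIN.{u}) :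
    Stmt_FINX.{u} := by
  obtain ⟨δF, π, θF, dF, hδF, hπ, hπ3, hθF, hF⟩ := hFIN
  obtain ⟨δ1, θv, hδ1, hθv, hV⟩ := hVMIX (min δF (1 / 1000)) π (lt_min hδF (by norm_num))
    (min_le_right _ _) hπ hπ3
  obtain ⟨θ, hθd⟩ : ∃ θ : ℝ, θ = min (min θF θv) (1 / 100) := ⟨_, rfl⟩
  have hθ0 : 0 < θ := by
    rw [hθd]
    exact lt_min (lt_min hθF hθv) (by norm_num)
  have hθ1 : θ ≤ θF := by rw [hθd]; exact (min_le_left _ _).trans (min_le_left _ _)
  have hθ2 : θ ≤ θv := by rw [hθd]; exact (min_le_left _ _).trans (min_le_right _ _)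
  have hθ3 : θ ≤ 1 / 100 := by rw [hθd]; exact min_le_right _ _
  have hm : 0 < min δ1 δF := lt_min hδ1 hδF
  refine ⟨π, min δ1 δF / 2, θ, hπ, hπ3, by positivity, hθ0, ?_⟩
  intro x hx hxθ
  obtain ⟨η, dV, hη, hV'⟩ := hV x hx (hxθ.trans hθ2)
  refine ⟨η, hη, fun a0 ha0 => ?_⟩
  obtain ⟨dL, hL⟩ := logs x a0 hx ha0
  refine ⟨max (max dF dV) (max dL (max ⌈1 / η⌉₊ 1)), ?_⟩
  intro V _ k ι κ δ0 θ' δ1' ε2 c ε ρs s δ' G EH d Ys UH Gd Hs c0 tu cc t E K0 C p a Z μ E1 vb sy u
    j0 sp hM Fy Mt pn F0 t' E' t'' E'' T hd hs hδ'x hδ'δ hc hc1 hε hε1 P M Cr hTE hTX hTY hpar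
  have hdF : dF ≤ d := by omega
  have hdV : dV ≤ d := by omega
  have hdL : dL ≤ d := by omega
  have hdη : ⌈1 / η⌉₊ ≤ d := by omega
  have hd1 : 1 ≤ d := by omega
  have hdη' : 1 ≤ η * d := by
    have h1 : 1 / η ≤ d := (Nat.le_ceil _).trans (by exact_mod_cast hdη)
    rw [div_le_iff₀ hη] at h1
    linarith
  have hd0 : (0 : ℝ) ≤ d := Nat.cast_nonneg _
  have hd1' : (1 : ℝ) ≤ d := by exact_mod_cast hd1
  obtain ⟨l3, l5, l8, l38, l13⟩ := hL d hdL
  have gr := P.grp
  have hshs : ∀ Y ∈ shs d Ys, Y ∈ Ys := fun Y hY => (mem_filter.mp hY).1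
  have hsms : ∀ Y ∈ sms G d Hs Ys, Y ∈ shs d Ys ∧ wl G d Hs Y < Real.log d ^ 3 * Y.card :=
    fun Y hY => mem_filter.mp hY
  have hYpos : ∀ Y ∈ Ys, (0 : ℝ) < Y.card := by
    intro Y hY
    have h1 := gr.low Y hY
    have h2 : (0 : ℝ) < (1 - θ) * d := by
      have : (0 : ℝ) < 1 - θ := by linarith
      positivity
    linarith
  -- the cardinality of `Fy`
  have hFy2 : ∀ Y ∈ sms G d Hs Ys, (Fy Y).card ≤ 2 := by
    intro Y hY
    have hYY := hshs Y (hsms Y hY).1
    have h1 := P.uh Y hY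
    have h2 : (∑ v ∈ Y \ Hs, ((nb G v).filter (fun y => y ∉ Y ∧ y ∈ UH)).card) ≤
        2 * Y.card := by
      calc (∑ v ∈ Y \ Hs, ((nb G v).filter (fun y => y ∉ Y ∧ y ∈ UH)).card) ≤
            ∑ v ∈ Y \ Hs, 2 := by
            apply sum_le_sum
            intro v _
            refine le_trans (card_le_card ?_) (two_UH gr.pre v)
            intro w hw
            rw [mem_filter] at hw ⊢
            exact ⟨hw.1, hw.2.2⟩
        _ = (Y \ Hs).card * 2 := by rw [sum_const, smul_eq_mul]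
        _ ≤ 2 * Y.card := by
            have := card_le_card (sdiff_subset : Y \ Hs ⊆ Y)
            omega
    have h3 : ((∑ v ∈ Y \ Hs, ((nb G v).filter (fun y => y ∉ Y ∧ y ∈ UH)).card : ℕ) : ℝ) ≤
        2 * Y.card := by exact_mod_cast h2
    have h4 : ((Fy Y).card : ℝ) * (1 - ε) ≤ 2 :=
      le_of_mul_le_mul_right (h1.trans h3) (hYpos Y hYY)
    have h5 : ((Fy Y).card : ℝ) * (9 / 10) ≤ 2 := by
      have : ((Fy Y).card : ℝ) * (9 / 10) ≤ ((Fy Y).card : ℝ) * (1 - ε) :=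
        mul_le_mul_of_nonneg_left (by linarith) (Nat.cast_nonneg _)
      linarith
    have h6 : ((Fy Y).card : ℝ) < 3 := by linarith
    have h7 : (Fy Y).card < 3 := by exact_mod_cast h6
    omega
  have hFyu : ∀ Y ∈ shs d Ys, ((Fy Y).card : ℝ) ≤ 10 * η * d := by
    intro Y hY
    by_cases hYs : Y ∈ sms G d Hs Ys
    · have h1 : ((Fy Y).card : ℝ) ≤ 2 := by exact_mod_cast hFy2 Y hYs
      have h2 : 10 * η * d = 10 * (η * d) := by ring
      rw [h2]
      linarith
    · have hYY := hshs Y hY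
      have h1 := P.cnt Y hY hYs
      have h2 := (wl_le gr.deg Hs Y).trans (gr.sum Y hYY)
      have h3 : 0 ≤ wl G d Hs Y := by
        unfold wl
        apply sum_nonneg
        intro v _
        have h1 : (nb G v ∩ Y).card ≤ d := (card_le_card inter_subset_left).trans (gr.deg v)
        have h2 : ((nb G v ∩ Y).card : ℝ) ≤ d := by exact_mod_cast h1
        linarith
      have h4 : (1 - c) * wl G d Hs Y ≤ wl G d Hs Y := by
        have := mul_nonneg hc.le h3
        linarith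
      have h5 : ((Fy Y).card : ℝ) ≤ η * d :=
        le_of_mul_le_mul_right ((h1.trans h4).trans h2) (hYpos Y hYY)
      have h6 : 10 * η * d = 10 * (η * d) := by ring
      rw [h6]
      linarith
  have hGT : ∀ v ∈ Gd, v ∉ T := by
    intro v hv hvT
    rcases hTX v hvT with h | h
    · exact h (mem_union_right _ hv)
    · exact (P.gmem v hv).1 h
  have hOut := out_of M.out Cr hTE hTY
  have hSHH : SHH x η θv (Real.log d ^ 3) (a0 * Real.log d ^ 8) (2 * Real.log d ^ 8)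
      (Real.log d ^ 5) G EH d Ys (sms G d Hs Ys) UH Gd Hs c0 cc E'' (F0S K0 F0 E'') K0 Fy Mt
      pn :=
    { deg := gr.deg
      dis := gr.dis
      low := fun Y hY => le_trans (mul_le_mul_of_nonneg_right (by linarith) hd0) (gr.low Y hY)
      inn := fun Y hY v hv =>
        le_trans (mul_le_mul_of_nonneg_right (by linarith) hd0) (gr.din Y hY v hv)
      sum := gr.sum
      uh2 := gr.uh2
      F0K := by
        intro v hv hvs
        unfold F0S
        exact union_subset (M.F0K v hv hvs) inter_subset_right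
      F0d := fun v hv hvs => card_F0S Cr gr.pre M.F0n hv hvs
      F0E := fun v _ _ => subset_union_right
      F0c := fun v hv hvs h => mem_union_left _ (Cr.F0c v hv hvs h)
      FyK := P.FyK
      Fyc := P.Fyc
      Fyu := hFyu
      par := by
        intro Y hY
        refine (hpar Y hY).trans ((card_le_card ?_).trans (Nat.le_add_left _ _))
        intro b hb
        rw [mem_filter, mem_sdiff] at hb ⊢
        refine ⟨hb.1, ?_⟩
        have h1 : Y.filter (fun v => b ∉ MP_db9399_sw.fst UH (F0S K0 F0 E'') E'' v) =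
            Y.filter (fun v => b ∉ FE UH F0 E'' v) :=
          filter_congr (fun v _ => fst_FE hb.1.1 v)
        rw [h1]
        exact hb.2
      mat := P.mat
      mta := P.mta
      mtn := P.mtn
      pnu := by
        intro Y hY
        have h1 : (pn Y : ℝ) ≤ (Fy Y).card := by exact_mod_cast P.pnF Y hY
        exact h1.trans (hFyu Y hY)
      big := by
        intro Y hY hYs b hb hbF hbU
        have h1 := P.big Y hY hYs b hb hbF hbU
        have h2 := avl_loss (G := G) (Ys := Ys) (UH := UH) (c := cc) (E := E) (Y := Y) (b := b)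
          hTE
        have h3 : ((avl G Ys UH cc E Y b).card : ℝ) ≤ (avl G Ys UH cc E'' Y b).card +
            (Y.filter (fun v => b ∈ E' v ∧ b ∉ E v)).card + (Y ∩ T).card := by
          exact_mod_cast h2
        have h4 := M.ldn Y (hshs Y hY) b
        have h5 := hTY Y (hshs Y hY)
        have h6 : s * d ≤ x / 2 * d := mul_le_mul_of_nonneg_right hs hd0
        have h7 : δ' * d ≤ x / 2 * d := mul_le_mul_of_nonneg_right hδ'x hd0
        linarith
      sml := fun Y hY => ⟨(hsms Y hY).1, (hsms Y hY).2.le, P.gupp Y hY⟩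
      hsc := fun Y hY => gr.hsc Y (hshs Y (hsms Y hY).1)
      gds := by
        intro Y hY b hb hbF hbU
        have h1 := P.gds Y hY b hb hbF hbU
        have h2 := avl_lossG (G := G) (Ys := Ys) (UH := UH) (c := cc) (E := E) (Y := Y) (b := b)
          (Gd := Gd) hTE hGT
        have h3 := M.gdn Y (hshs Y (hsms Y hY).1) b
        have h4 : ((avl G Ys UH cc E Y b ∩ Gd).card : ℝ) ≤
            (avl G Ys UH cc E'' Y b ∩ Gd).card + 1 := by
          exact_mod_cast h2.trans (Nat.add_le_add_left h3 _)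
        linarith
      gdd := by
        intro v hv
        obtain ⟨-, -, h3, h4⟩ := P.gmem v hv
        exact ⟨h3, h4⟩
      gdi := P.gind
      gde := P.gde }
  obtain ⟨c', Z', F, hc', hZ', hVert⟩ := hV' (Real.log d ^ 3) (a0 * Real.log d ^ 8)
    (2 * Real.log d ^ 8) (Real.log d ^ 5) G EH d Ys (sms G d Hs Ys) UH Gd Hs c0 tu cc t'' E''
    (F0S K0 F0 E'') K0 C p a (Z ∪ T) Fy Mt pn hdV l3 l5 l8 l38 l13 gr.pre P.Cu
    (fun Y hY => (gr.upp Y hY).trans (mul_le_mul_of_nonneg_right (by linarith) hd0))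
    (fun Y hY v hv => (gr.inn Y hY v hv).trans (mul_le_mul_of_nonneg_right hθ2 hd0))
    (out_mono hOut (by
      have := min_le_left δ1 δF
      linarith)) hSHH
  have hdk : d + 2 ≤ k := by
    have h1 := M.out.K0c
    have h2 := card_le_univ K0
    rw [Fintype.card_fin] at h2
    omega
  obtain ⟨t3, h1, h2, h3⟩ := hF G d k Ys UH c0 EH tu cc c' t'' E'' F K0 C p a (Z ∪ T) Z' hdF
    gr.deg gr.dis
    (fun Y hY => ⟨le_trans (mul_le_mul_of_nonneg_right (by linarith) hd0) (gr.low Y hY),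
      (gr.upp Y hY).trans (mul_le_mul_of_nonneg_right (by linarith) hd0)⟩)
    (fun Y hY v hv => le_trans (mul_le_mul_of_nonneg_right (by linarith) hd0)
      (gr.din Y hY v hv))
    (fun Y hY v hv => (gr.inn Y hY v hv).trans (mul_le_mul_of_nonneg_right hθ1 hd0)) gr.pre
    (out_mono hOut (by
      have := min_le_right δ1 δF
      linarith)) hc' hZ' (vert_mono hVert (min_le_left _ _))
  exact ⟨c', t3, h1, h2, h3⟩

end Pool.Agent.Work.MP_db9399_sx.helper1
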