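import Pool.Agent.Work.MP_db9399_sx.Pre

/-! # MTP (owner helper1): glued pairs -/

set_option autoImplicit false
set_option linter.unusedSectionVars false

namespace Pool.Agent.Work.MP_db9399_sx.helper1

open Finset Classical
open Pool.Agent.Work.MP_db9399_all (nb)
open Pool.Agent.Work.MP_db9399_dn (IsMat Tot)
open Pool.Agent.Work.MP_db9399_bg (HPre)
open Pool.Agent.Work.MP_db9399_sl (InS Same Gout Gss Gin Gex Out Vert Spt Bip)
open Pool.Agent.Work.MP_db9399_sw (shs sms wt wl od ac avl SHH Gxh Grh Lgt)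
open Pool.Agent.Work.MP_db9399_sx

universe u

section
variable {V : Type u} [Fintype V]

theorem mem_nbM (G : SimpleGraph V) (v w : V) : w ∈ nb G v ↔ G.Adj v w := by
  unfold nb; simp

/-- number of partners of `v` -/
noncomputable def fp (G : SimpleGraph V) (Y UH : Finset V) (v : V) : Finset V :=
  Y.filter (fun w => w ∉ UH ∧ w ≠ v ∧ ¬ G.Adj v w)

theorem fp_low (G : SimpleGraph V) (Y UH : Finset V) (h2 : (Y ∩ UH).card ≤ 2) (v : V) :
    (Y.card : ℝ) - (nb G v ∩ Y).card - 3 ≤ (fp G Y UH v).card := by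
  have h1 : Y ⊆ ((fp G Y UH v ∪ (nb G v ∩ Y)) ∪ (Y ∩ UH)) ∪ {v} := by
    intro w hw
    rw [mem_union, mem_union, mem_union, mem_inter, mem_inter, mem_nbM, mem_singleton]
    unfold fp
    rw [mem_filter]
    by_cases h : w ∈ UH
    · exact Or.inl (Or.inr ⟨hw, h⟩)
    · by_cases h' : w = v
      · exact Or.inr h'
      · by_cases h'' : G.Adj v w
        · exact Or.inl (Or.inl (Or.inr ⟨h'', hw⟩))
        · exact Or.inl (Or.inl (Or.inl ⟨hw, h, h', h''⟩))
  have h3 := (card_le_card h1).trans ((card_union_le _ _).trans (Nat.add_le_add_right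
    ((card_union_le _ _).trans (Nat.add_le_add_right (card_union_le _ _) _)) _))
  rw [card_singleton] at h3
  have h4 : Y.card ≤ (fp G Y UH v).card + (nb G v ∩ Y).card + 3 := by omega
  have h5 : (Y.card : ℝ) ≤ (fp G Y UH v).card + (nb G v ∩ Y).card + 3 := by exact_mod_cast h4
  linarith

theorem fp_le (G : SimpleGraph V) (Y UH : Finset V) (v : V) :
    (fp G Y UH v).card ≤ Y.card := card_le_card (filter_subset _ _)

theorem fp_le' (G : SimpleGraph V) (Y UH : Finset V) (v : V) :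
    (fp G Y UH v).card ≤ (Y \ nb G v).card := by
  apply card_le_card
  intro w hw
  unfold fp at hw
  rw [mem_filter] at hw
  rw [mem_sdiff, mem_nbM]
  exact ⟨hw.1, hw.2.2.2⟩

/-- the sum over the light vertices -/
theorem fp_sum (G : SimpleGraph V) (d : ℕ) (Y UH Hs : Finset V) (h2 : (Y ∩ UH).card ≤ 2)
    (hY : Y.card ≤ d) :
    wl G d Hs Y - ((d : ℝ) + 5 - Y.card) * Y.card ≤
      ∑ v ∈ (Y \ Hs) \ UH, ((fp G Y UH v).card : ℝ) := by
  have h1 : ∑ v ∈ Y \ Hs, ((fp G Y UH v).card : ℝ) ≤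
      ∑ v ∈ (Y \ Hs) \ UH, ((fp G Y UH v).card : ℝ) + 2 * Y.card := by
    rw [← sum_inter_add_sum_sdiff (Y \ Hs) UH]
    have h3 : ∑ v ∈ (Y \ Hs) ∩ UH, ((fp G Y UH v).card : ℝ) ≤
        ∑ v ∈ (Y \ Hs) ∩ UH, (Y.card : ℝ) :=
      sum_le_sum fun v _ => by exact_mod_cast fp_le G Y UH v
    have h4 : ∑ v ∈ (Y \ Hs) ∩ UH, (Y.card : ℝ) ≤ 2 * Y.card := by
      rw [sum_const, nsmul_eq_mul]
      apply mul_le_mul_of_nonneg_right _ (Nat.cast_nonneg _)
      have h5 : ((Y \ Hs) ∩ UH).card ≤ 2 :=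
        (card_le_card (inter_subset_inter_right sdiff_subset)).trans h2
      exact_mod_cast h5
    linarith
  have h3 : ∑ v ∈ Y \ Hs, ((Y.card : ℝ) - (nb G v ∩ Y).card - 3) ≤
      ∑ v ∈ Y \ Hs, ((fp G Y UH v).card : ℝ) := sum_le_sum fun v _ => fp_low G Y UH h2 v
  have h4 : ∑ v ∈ Y \ Hs, ((Y.card : ℝ) - (nb G v ∩ Y).card - 3) =
      wl G d Hs Y - (Y \ Hs).card * ((d : ℝ) + 3 - Y.card) := by
    unfold wl
    rw [← nsmul_eq_mul, ← sum_const, ← sum_sub_distrib]
    apply sum_congr rfl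
    intro v _
    ring
  have h5 : ((Y \ Hs).card : ℝ) * ((d : ℝ) + 3 - Y.card) ≤
      Y.card * ((d : ℝ) + 3 - Y.card) := by
    apply mul_le_mul_of_nonneg_right
    · exact_mod_cast card_le_card sdiff_subset
    · have : (Y.card : ℝ) ≤ d := by exact_mod_cast hY
      linarith
  have h6 : ((d : ℝ) + 5 - Y.card) * Y.card =
      Y.card * ((d : ℝ) + 3 - Y.card) + 2 * Y.card := by ring
  rw [h6]
  linarith

/-- a new pair -/
theorem new_pair {G : SimpleGraph V} {d q pn : ℕ} {Y UH Hs Cv : Finset V} {θ : ℝ}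
    (hd : 0 < d) (hθ : θ ≤ 1 / 100) (hlow : (1 - θ) * d ≤ (Y.card : ℝ))
    (hinn : ∀ v ∈ Y, ((Y \ nb G v).card : ℝ) ≤ θ * d)
    (hsum : (pn : ℝ) * Y.card ≤ ∑ v ∈ (Y \ Hs) \ UH, ((fp G Y UH v).card : ℝ))
    (hq : q < pn) (hCv : Cv.card ≤ 2 * q) (hCY : Cv ⊆ Y) :
    ∃ v ∈ Y, ∃ w ∈ Y, v ∉ UH ∧ w ∉ UH ∧ v ∉ Cv ∧ w ∉ Cv ∧ v ≠ w ∧ ¬ G.Adj v w := by
  by_contra hcon
  push Not at hcon
  have hd0 : (0 : ℝ) < d := by exact_mod_cast hd
  have h1 : ∑ v ∈ (Y \ Hs) \ UH, (fp G Y UH v).card ≤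
      ∑ v ∈ Cv, (Y \ nb G v).card + ∑ v ∈ Cv, (Y \ nb G v).card := by
    have h2 : ∀ v ∈ (Y \ Hs) \ UH, (fp G Y UH v).card ≤
        (if v ∈ Cv then (Y \ nb G v).card else 0) +
          (Cv.filter (fun w => v ∈ Y \ nb G w)).card := by
      intro v hv
      rw [mem_sdiff, mem_sdiff] at hv
      by_cases hvC : v ∈ Cv
      · rw [if_pos hvC]
        exact (fp_le' G Y UH v).trans (Nat.le_add_right _ _)
      · rw [if_neg hvC, zero_add]
        apply card_le_card
        intro w hw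
        unfold fp at hw
        rw [mem_filter] at hw
        rw [mem_filter, mem_sdiff, mem_nbM]
        have hwC : w ∈ Cv := by
          by_contra hwC
          exact hw.2.2.2 (hcon v hv.1.1 w hw.1 hv.2 hw.2.1 hvC hwC (fun h => hw.2.2.1 h.symm))
        exact ⟨hwC, hv.1.1, fun h => hw.2.2.2 h.symm⟩
    refine (sum_le_sum h2).trans ?_
    rw [sum_add_distrib]
    apply Nat.add_le_add
    · rw [← sum_filter]
      apply sum_le_sum_of_subset
      intro v hv
      rw [mem_filter] at hv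
      exact hv.2
    · have h3 : ∑ v ∈ (Y \ Hs) \ UH, (Cv.filter (fun w => v ∈ Y \ nb G w)).card ≤
          ∑ v ∈ Y, (Cv.filter (fun w => v ∈ Y \ nb G w)).card :=
        sum_le_sum_of_subset (sdiff_subset.trans sdiff_subset)
      refine h3.trans (le_of_eq ?_)
      have h4 := sum_card_bipartiteAbove_eq_sum_card_bipartiteBelow
        (s := Y) (t := Cv) (fun v w => v ∈ Y \ nb G w)
      unfold bipartiteAbove bipartiteBelow at h4
      rw [h4]
      apply sum_congr rfl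
      intro w _
      congr 1
      ext v
      rw [mem_filter]
      change v ∈ Y ∧ v ∈ Y \ nb G w ↔ _
      rw [mem_sdiff]
      tauto
  have h2 : ∑ v ∈ (Y \ Hs) \ UH, ((fp G Y UH v).card : ℝ) ≤
      ∑ v ∈ Cv, ((Y \ nb G v).card : ℝ) + ∑ v ∈ Cv, ((Y \ nb G v).card : ℝ) := by
    exact_mod_cast h1
  have h3 : ∑ v ∈ Cv, ((Y \ nb G v).card : ℝ) ≤ 2 * q * (θ * d) := by
    have h4 : ∑ v ∈ Cv, ((Y \ nb G v).card : ℝ) ≤ ∑ v ∈ Cv, θ * d :=
      sum_le_sum fun v hv => hinn v (hCY hv)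
    rw [sum_const, nsmul_eq_mul] at h4
    rcases Cv.eq_empty_or_nonempty with h0 | ⟨v, hv⟩
    · rw [h0, sum_empty]
      have h6 : (0 : ℝ) ≤ θ * d := by
        rcases Y.eq_empty_or_nonempty with h7 | ⟨w, hw⟩
        · exfalso
          rw [h7, card_empty, Nat.cast_zero] at hlow
          have : (0 : ℝ) < (1 - θ) * d := by
            have : (0 : ℝ) < 1 - θ := by linarith
            positivity
          linarith
        · exact le_trans (Nat.cast_nonneg _) (hinn w hw)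
      positivity
    · have h6 : (0 : ℝ) ≤ θ * d := le_trans (Nat.cast_nonneg _) (hinn v (hCY hv))
      refine h4.trans (mul_le_mul_of_nonneg_right ?_ h6)
      exact_mod_cast hCv
  have h4 : (pn : ℝ) * ((1 - θ) * d) ≤ 4 * q * (θ * d) := by
    have h5 : (pn : ℝ) * ((1 - θ) * d) ≤ pn * Y.card :=
      mul_le_mul_of_nonneg_left hlow (Nat.cast_nonneg _)
    linarith
  have h5 : (pn : ℝ) * (99 / 100) ≤ 4 * q * (1 / 100) := by
    have h6 : (pn : ℝ) * (1 - θ) ≤ 4 * q * θ := by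
      have : (pn : ℝ) * (1 - θ) * d ≤ 4 * q * θ * d := by linarith
      exact le_of_mul_le_mul_right this hd0
    have h7 : (pn : ℝ) * (99 / 100) ≤ pn * (1 - θ) :=
      mul_le_mul_of_nonneg_left (by linarith) (Nat.cast_nonneg _)
    have h8 : 4 * (q : ℝ) * θ ≤ 4 * q * (1 / 100) :=
      mul_le_mul_of_nonneg_left hθ (by positivity)
    linarith
  have h6 : (q : ℝ) + 1 ≤ pn := by exact_mod_cast hq
  have h7 : (0 : ℝ) ≤ q := Nat.cast_nonneg _
  linarith

/-- add an edge -/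
def addE (M : SimpleGraph V) (v w : V) (h : v ≠ w) : SimpleGraph V where
  Adj a b := M.Adj a b ∨ (a = v ∧ b = w) ∨ (a = w ∧ b = v)
  symm := ⟨by
    rintro a b (h1 | ⟨h1, h2⟩ | ⟨h1, h2⟩)
    · exact Or.inl h1.symm
    · exact Or.inr (Or.inr ⟨h2, h1⟩)
    · exact Or.inr (Or.inl ⟨h2, h1⟩)⟩
  loopless := ⟨by
    rintro a (h1 | ⟨h1, h2⟩ | ⟨h1, h2⟩)
    · exact M.loopless.irrefl a h1
    · exact h (h1.symm.trans h2)
    · exact h (h2.symm.trans h1)⟩

theorem exists_mat {G : SimpleGraph V} {d pn : ℕ} {Y UH Hs : Finset V} {θ : ℝ}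
    (hd : 0 < d) (hθ : θ ≤ 1 / 100) (hlow : (1 - θ) * d ≤ (Y.card : ℝ))
    (hinn : ∀ v ∈ Y, ((Y \ nb G v).card : ℝ) ≤ θ * d)
    (hsum : (pn : ℝ) * Y.card ≤ ∑ v ∈ (Y \ Hs) \ UH, ((fp G Y UH v).card : ℝ)) :
    ∀ q ≤ pn, ∃ M : SimpleGraph V, IsMat M ∧
      (∀ v w, M.Adj v w → v ∈ Y ∧ w ∈ Y ∧ v ∉ UH ∧ ¬ G.Adj v w) ∧
      (Y.filter (fun v => (nb M v).Nonempty)).card = 2 * q := by
  intro q
  induction q with
  | zero =>
    intro _
    refine ⟨⊥, ?_, fun v w h => absurd h (by simp), ?_⟩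
    · intro v
      have : nb (⊥ : SimpleGraph V) v = ∅ := by
        rw [eq_empty_iff_forall_notMem]
        intro w hw
        rw [mem_nbM] at hw
        exact hw
      rw [this, card_empty]
      exact Nat.zero_le _
    · rw [mul_zero, card_eq_zero, filter_eq_empty_iff]
      intro v _ h
      obtain ⟨w, hw⟩ := h
      rw [mem_nbM] at hw
      exact hw
  | succ q ih =>
    intro hq
    obtain ⟨M, hM1, hM2, hM3⟩ := ih (by omega)
    obtain ⟨v, hv, w, hw, hvU, hwU, hvC, hwC, hvw, hadj⟩ := new_pair hd hθ hlow hinn hsum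
      (q := q) (by omega) hM3.le (filter_subset _ _)
    rw [mem_filter, not_and] at hvC hwC
    have hvC' := not_nonempty_iff_eq_empty.mp (hvC hv)
    have hwC' := not_nonempty_iff_eq_empty.mp (hwC hw)
    have hv0 : ∀ b, ¬ M.Adj v b := fun b hb => by
      have := (mem_nbM M v b).mpr hb
      rw [hvC'] at this
      exact absurd this (notMem_empty _)
    have hw0 : ∀ b, ¬ M.Adj w b := fun b hb => by
      have := (mem_nbM M w b).mpr hb
      rw [hwC'] at this
      exact absurd this (notMem_empty _)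
    have hadd : ∀ a b, (addE M v w hvw).Adj a b ↔
        M.Adj a b ∨ (a = v ∧ b = w) ∨ (a = w ∧ b = v) := fun a b => Iff.rfl
    refine ⟨addE M v w hvw, ?_, ?_, ?_⟩
    · intro a
      rw [card_le_one]
      intro b hb b' hb'
      rw [mem_nbM, hadd] at hb hb'
      by_cases ha : a = v
      · rcases hb with hb | ⟨-, hb⟩ | ⟨h1, -⟩
        · exact absurd (ha ▸ hb) (hv0 b)
        · rcases hb' with hb' | ⟨-, hb'⟩ | ⟨h1, -⟩
          · exact absurd (ha ▸ hb') (hv0 b')
          · rw [hb, hb']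
          · exact absurd (ha.symm.trans h1) hvw
        · exact absurd (ha.symm.trans h1) hvw
      · by_cases ha' : a = w
        · rcases hb with hb | ⟨h1, -⟩ | ⟨-, hb⟩
          · exact absurd (ha' ▸ hb) (hw0 b)
          · exact absurd h1 ha
          · rcases hb' with hb' | ⟨h1, -⟩ | ⟨-, hb'⟩
            · exact absurd (ha' ▸ hb') (hw0 b')
            · exact absurd h1 ha
            · rw [hb, hb']
        · have hb1 : M.Adj a b := by
            rcases hb with hb | ⟨h1, -⟩ | ⟨h1, -⟩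
            · exact hb
            · exact absurd h1 ha
            · exact absurd h1 ha'
          have hb2 : M.Adj a b' := by
            rcases hb' with hb | ⟨h1, -⟩ | ⟨h1, -⟩
            · exact hb
            · exact absurd h1 ha
            · exact absurd h1 ha'
          have h1 := hM1 a
          rw [card_le_one] at h1
          exact h1 b ((mem_nbM _ _ _).mpr hb1) b' ((mem_nbM _ _ _).mpr hb2)
    · intro a b hab
      rw [hadd] at hab
      rcases hab with h | ⟨h1, h2⟩ | ⟨h1, h2⟩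
      · exact hM2 a b h
      · rw [h1, h2]
        exact ⟨hv, hw, hvU, hadj⟩
      · rw [h1, h2]
        exact ⟨hw, hv, hwU, fun h => hadj h.symm⟩
    · have h1 : Y.filter (fun a => (nb (addE M v w hvw) a).Nonempty) =
          insert v (insert w (Y.filter (fun a => (nb M a).Nonempty))) := by
        ext a
        rw [mem_filter, mem_insert, mem_insert, mem_filter]
        constructor
        · rintro ⟨ha, b, hb⟩
          rw [mem_nbM, hadd] at hb
          rcases hb with h | ⟨h, -⟩ | ⟨h, -⟩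
          · exact Or.inr (Or.inr ⟨ha, b, (mem_nbM _ _ _).mpr h⟩)
          · exact Or.inl h
          · exact Or.inr (Or.inl h)
        · rintro (h | h | ⟨ha, b, hb⟩)
          · rw [h]
            exact ⟨hv, w, (mem_nbM _ _ _).mpr ((hadd _ _).mpr (Or.inr (Or.inl ⟨rfl, rfl⟩)))⟩
          · rw [h]
            exact ⟨hw, v, (mem_nbM _ _ _).mpr ((hadd _ _).mpr (Or.inr (Or.inr ⟨rfl, rfl⟩)))⟩
          · exact ⟨ha, b, (mem_nbM _ _ _).mpr ((hadd _ _).mpr
              (Or.inl ((mem_nbM _ _ _).mp hb)))⟩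
      rw [h1, card_insert_of_notMem, card_insert_of_notMem, hM3]
      · omega
      · rw [mem_filter, not_and]
        exact hwC
      · rw [mem_insert, not_or, mem_filter, not_and]
        exact ⟨hvw, hvC⟩

end

/-- **MTP** -/
theorem stmt_MTP : Stmt_MTP.{u} := by
  intro c hc hc1
  have hlog : ∀ᶠ d : ℕ in Filter.atTop, max 1 (3 / c) ≤ Real.log d :=
    (Real.tendsto_log_atTop.comp tendsto_natCast_atTop_atTop).eventually_ge_atTop _
  obtain ⟨dL, hL⟩ := Filter.eventually_atTop.mp hlog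
  refine ⟨max dL 1, ?_⟩
  intro V _ k θ θ' η G EH d Ys UH Hs Gd c0 tu Fy hd hθ gr hcnt hsm hGd
  have hdL : dL ≤ d := by omega
  have hd1 : 0 < d := by omega
  have hlog1 : 1 ≤ Real.log d := (le_max_left _ _).trans (hL d hdL)
  have hlog2 : 3 ≤ c * Real.log d ^ 3 := by
    have h1 : 3 / c ≤ Real.log d := (le_max_right _ _).trans (hL d hdL)
    rw [div_le_iff₀ hc] at h1
    have h2 : Real.log d ≤ Real.log d ^ 3 := by
      calc Real.log d = Real.log d ^ 1 := (pow_one _).symm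
        _ ≤ Real.log d ^ 3 := pow_le_pow_right₀ hlog1 (by norm_num)
    have h3 : c * Real.log d ≤ c * Real.log d ^ 3 := mul_le_mul_of_nonneg_left h2 hc.le
    linarith
  have hshs : ∀ Y ∈ shs d Ys, Y ∈ Ys ∧ Y.card < d := fun Y hY => mem_filter.mp hY
  obtain ⟨pn, hpn⟩ : ∃ pn : Finset V → ℕ, ∀ Y, pn Y = (Fy Y).card + Y.card - (d + 2) :=
    ⟨_, fun _ => rfl⟩
  have hex : ∀ Y ∈ shs d Ys, ∃ M : SimpleGraph V, IsMat M ∧
      (∀ v w, M.Adj v w → v ∈ Y ∧ w ∈ Y ∧ v ∉ UH ∧ ¬ G.Adj v w) ∧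
      (Y ∈ sms G d Hs Ys → ∀ v w, ¬ M.Adj v w) ∧
      (Y.filter (fun v => (nb M v).Nonempty)).card = 2 * pn Y := by
    intro Y hY
    obtain ⟨hYY, hYd⟩ := hshs Y hY
    by_cases hYs : Y ∈ sms G d Hs Ys
    · have h0 : pn Y = 0 := by
        rw [hpn]
        have := hsm Y hYs
        omega
      refine ⟨⊥, ?_, fun v w h => absurd h (by simp), fun _ v w h => h, ?_⟩
      · intro v
        have : nb (⊥ : SimpleGraph V) v = ∅ := by
          rw [eq_empty_iff_forall_notMem]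
          intro w hw
          rw [mem_nbM] at hw
          exact hw
        rw [this, card_empty]
        exact Nat.zero_le _
      · rw [h0, mul_zero, card_eq_zero, filter_eq_empty_iff]
        intro v _ h
        obtain ⟨w, hw⟩ := h
        rw [mem_nbM] at hw
        exact hw
    · have hwl : Real.log d ^ 3 * Y.card ≤ wl G d Hs Y := by
        by_contra h
        exact hYs (mem_filter.mpr ⟨hY, not_le.mp h⟩)
      have hs := fp_sum G d Y UH Hs (gr.uh2 Y hYY) hYd.le
      have hsum : (pn Y : ℝ) * Y.card ≤ ∑ v ∈ (Y \ Hs) \ UH, ((fp G Y UH v).card : ℝ) := by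
        by_cases h0 : pn Y = 0
        · rw [h0, Nat.cast_zero, zero_mul]
          exact sum_nonneg fun v _ => Nat.cast_nonneg _
        · have h1 : (pn Y : ℝ) = (Fy Y).card + Y.card - (d + 2) := by
            have h2 : pn Y + (d + 2) = (Fy Y).card + Y.card := by
              rw [hpn] at h0 ⊢
              omega
            have h3 : (pn Y : ℝ) + (d + 2) = (Fy Y).card + Y.card := by exact_mod_cast h2
            linarith
          have h2 := hcnt Y hY hYs
          have h3 : (pn Y : ℝ) * Y.card =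
              (Fy Y).card * Y.card - ((d : ℝ) + 2 - Y.card) * Y.card := by
            rw [h1]
            ring
          have h4 : 3 * (Y.card : ℝ) ≤ c * wl G d Hs Y := by
            have h5 : 3 * (Y.card : ℝ) ≤ c * Real.log d ^ 3 * Y.card :=
              mul_le_mul_of_nonneg_right hlog2 (Nat.cast_nonneg _)
            have h6 : c * (Real.log d ^ 3 * Y.card) ≤ c * wl G d Hs Y :=
              mul_le_mul_of_nonneg_left hwl hc.le
            linarith
          have h5 : ((d : ℝ) + 5 - Y.card) * Y.card =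
              ((d : ℝ) + 2 - Y.card) * Y.card + 3 * Y.card := by ring
          rw [h5] at hs
          rw [h3]
          linarith
      obtain ⟨M, h1, h2, h3⟩ := exists_mat hd1 hθ (gr.low Y hYY) (gr.inn Y hYY) hsum (pn Y)
        le_rfl
      exact ⟨M, h1, h2, fun h => absurd h hYs, h3⟩
  choose! MY hMY1 hMY2 hMY3 hMY4 using hex
  have huniq : ∀ Y ∈ shs d Ys, ∀ Y' ∈ shs d Ys, ∀ v, v ∈ Y → v ∈ Y' → Y = Y' := by
    intro Y hY Y' hY' v hv hv'
    by_contra h
    exact disjoint_left.mp (gr.dis Y (hshs Y hY).1 Y' (hshs Y' hY').1 h) hv hv'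
  obtain ⟨Mt, hMt⟩ : ∃ Mt : SimpleGraph V, ∀ v w, Mt.Adj v w ↔
      ∃ Y ∈ shs d Ys, (MY Y).Adj v w := by
    refine ⟨{ Adj := fun v w => ∃ Y ∈ shs d Ys, (MY Y).Adj v w
              symm := ⟨fun v w ⟨Y, hY, h⟩ => ⟨Y, hY, h.symm⟩⟩
              loopless := ⟨fun v ⟨Y, hY, h⟩ => (MY Y).loopless.irrefl v h⟩ }, fun v w => Iff.rfl⟩
  refine ⟨Mt, pn, ?_, ?_, ?_, ?_, ?_⟩
  · intro v
    rw [card_le_one]
    intro a ha b hb
    rw [mem_nbM, hMt] at ha hb
    obtain ⟨Y, hY, ha⟩ := ha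
    obtain ⟨Y', hY', hb⟩ := hb
    have h1 := huniq Y hY Y' hY' v (hMY2 Y hY v a ha).1 (hMY2 Y' hY' v b hb).1
    subst h1
    have h2 := hMY1 Y hY v
    rw [card_le_one] at h2
    exact h2 a ((mem_nbM _ _ _).mpr ha) b ((mem_nbM _ _ _).mpr hb)
  · intro Y hY
    rw [hpn]
    omega
  · intro Y hY
    have := (hshs Y hY).2
    rw [hpn]
    omega
  · intro v w h
    obtain ⟨Y, hY, h⟩ := (hMt v w).mp h
    obtain ⟨h1, h2, h3, h4⟩ := hMY2 Y hY v w h
    refine ⟨⟨Y, hY, h1, h2⟩, h4, h3, ?_⟩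
    intro hvG
    obtain ⟨Y', hY', hv'⟩ := hGd v hvG
    have hY'' : Y' ∈ shs d Ys := (mem_filter.mp hY').1
    have h5 := huniq Y hY Y' hY'' v h1 hv'
    subst h5
    exact hMY3 Y hY hY' v w h
  · intro Y hY
    rw [← hMY4 Y hY]
    congr 1
    apply filter_congr
    intro v hv
    constructor
    · rintro ⟨w, hw⟩
      rw [mem_nbM, hMt] at hw
      obtain ⟨Y', hY', h⟩ := hw
      have h5 := huniq Y hY Y' hY' v hv (hMY2 Y' hY' v w h).1
      subst h5
      exact ⟨w, (mem_nbM _ _ _).mpr h⟩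
    · rintro ⟨w, hw⟩
      exact ⟨w, (mem_nbM _ _ _).mpr ((hMt _ _).mpr ⟨Y, hY, (mem_nbM _ _ _).mp hw⟩)⟩

end Pool.Agent.Work.MP_db9399_sx.helper1
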